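import Pool.Agent.H93.SC.Targets3

/-!
# Polarisation (MP_f2954d_ag, module POL)
-/

set_option autoImplicit false

namespace Pool.Agent.H89.SC2

open SC Finset

/-- alternating sum over the sets containing the values of a map which is not surjective -/
theorem alt_sum_zero {n : ℕ} (φ : Fin n → Fin n) (j : Fin n) (hj : ∀ i, φ i ≠ j) :
    ∑ S ∈ (univ : Finset (Finset (Fin n))).filter (fun S => ∀ i, φ i ∈ S), (-1 : ℝ) ^ S.card = 0 := by
  classical
  refine Finset.sum_involution (fun S _ => if j ∈ S then S.erase j else insert j S) ?_ ?_ ?_ ?_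
  · intro S _
    by_cases h : j ∈ S
    · simp only [h, if_true]
      have : S.card = (S.erase j).card + 1 := by rw [Finset.card_erase_add_one h]
      rw [this, pow_succ]; ring
    · simp only [h, if_false]
      rw [Finset.card_insert_of_notMem h, pow_succ]; ring
  · intro S _ _
    by_cases h : j ∈ S
    · simp only [h, if_true]
      intro hc
      have := Finset.notMem_erase j S
      rw [hc] at this
      exact this h
    · simp only [h, if_false]
      intro hc
      have := Finset.mem_insert_self j S
      rw [hc] at this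
      exact h this
  · intro S hS
    rw [Finset.mem_filter] at hS ⊢
    refine ⟨mem_univ _, fun i => ?_⟩
    by_cases h : j ∈ S
    · simp only [h, if_true]
      exact Finset.mem_erase.2 ⟨hj i, hS.2 i⟩
    · simp only [h, if_false]
      exact Finset.mem_insert_of_mem (hS.2 i)
  · intro S _
    by_cases h : j ∈ S
    · simp only [h, if_true, Finset.notMem_erase, if_false]
      exact Finset.insert_erase h
    · simp only [h, if_false, Finset.mem_insert_self, if_true]
      exact Finset.erase_insert h

/-- polarisation -/
theorem polar {M : Type*} [AddCommGroup M] [Module ℝ M] {n : ℕ} (hn : 1 ≤ n)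
    (δ : MultilinearMap ℝ (fun _ : Fin n => M) ℝ)
    (hsym : ∀ (σ : Equiv.Perm (Fin n)) (D : Fin n → M), δ (fun i => D (σ i)) = δ D)
    (x : Fin n → M) (h : ∀ S : Finset (Fin n), S.Nonempty → δ (fun _ => ∑ i ∈ S, x i) = 0) :
    δ x = 0 := by
  classical
  have h0 : ∀ S : Finset (Fin n), δ (fun _ => ∑ i ∈ S, x i) = 0 := by
    intro S
    rcases S.eq_empty_or_nonempty with rfl | hS
    · simp only [Finset.sum_empty]
      exact δ.map_coord_zero ⟨0, by omega⟩ rfl
    · exact h S hS
  have hexp : ∀ S : Finset (Fin n), δ (fun _ => ∑ i ∈ S, x i) =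
      ∑ φ : Fin n → Fin n, if ∀ i, φ i ∈ S then δ (fun i => x (φ i)) else 0 := by
    intro S
    have h1 := δ.map_sum_finset (fun _ j => x j) (fun _ => S)
    rw [h1, ← Finset.sum_filter]
    refine Finset.sum_congr ?_ fun _ _ => rfl
    ext φ
    simp [Fintype.mem_piFinset]
  have hkey : ∑ φ : Fin n → Fin n, (∑ S ∈ (univ : Finset (Finset (Fin n))).filter
      (fun S => ∀ i, φ i ∈ S), (-1 : ℝ) ^ S.card) * δ (fun i => x (φ i)) = 0 := by
    calc _ = ∑ S : Finset (Fin n), (-1 : ℝ) ^ S.card * δ (fun _ => ∑ i ∈ S, x i) := by
          simp_rw [hexp, Finset.sum_mul, Finset.sum_filter, Finset.mul_sum]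
          rw [Finset.sum_comm]
          refine Finset.sum_congr rfl fun S _ => Finset.sum_congr rfl fun φ _ => ?_
          split_ifs <;> simp
      _ = 0 := by simp [h0]
  have heach : ∀ φ : Fin n → Fin n, (∑ S ∈ (univ : Finset (Finset (Fin n))).filter
      (fun S => ∀ i, φ i ∈ S), (-1 : ℝ) ^ S.card) * δ (fun i => x (φ i)) =
      if Function.Bijective φ then (-1 : ℝ) ^ n * δ x else 0 := by
    intro φ
    by_cases hφ : Function.Bijective φ
    · rw [if_pos hφ]
      have h1 : (univ : Finset (Finset (Fin n))).filter (fun S => ∀ i, φ i ∈ S) = {univ} := by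
        ext S
        simp only [mem_filter, mem_univ, true_and, mem_singleton]
        constructor
        · intro hS
          ext j
          simp only [mem_univ, iff_true]
          obtain ⟨i, rfl⟩ := hφ.2 j
          exact hS i
        · rintro rfl i
          exact mem_univ _
      rw [h1, Finset.sum_singleton, Finset.card_univ, Fintype.card_fin]
      congr 1
      exact hsym (Equiv.ofBijective φ hφ) x
    · rw [if_neg hφ]
      have hns : ¬ Function.Surjective φ := fun hs => hφ (Finite.surjective_iff_bijective.1 hs)
      unfold Function.Surjective at hns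
      push Not at hns
      obtain ⟨j, hj⟩ := hns
      rw [alt_sum_zero φ j hj, zero_mul]
  simp_rw [heach] at hkey
  rw [← Finset.sum_filter, Finset.sum_const, nsmul_eq_mul] at hkey
  have hc : ((univ : Finset (Fin n → Fin n)).filter Function.Bijective).card ≠ 0 := by
    rw [Finset.card_ne_zero]
    exact ⟨id, Finset.mem_filter.2 ⟨mem_univ _, Function.bijective_id⟩⟩
  have hc' : (((univ : Finset (Fin n → Fin n)).filter Function.Bijective).card : ℝ) ≠ 0 := by
    exact_mod_cast hc
  have := (mul_eq_zero.1 hkey).resolve_left hc'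
  exact (mul_eq_zero.1 this).resolve_left (pow_ne_zero _ (by norm_num))

theorem toRP_add {P : Type} (A B : P →₀ ℤ) : toRP (A + B) = toRP A + toRP B := by
  unfold toRP
  exact Finsupp.mapRange_add (by intros; push_cast; rfl) A B

theorem toRP_zero {P : Type} : toRP (0 : P →₀ ℤ) = 0 := by
  unfold toRP
  exact Finsupp.mapRange_zero

theorem toRP_sum {P ι : Type} (S : Finset ι) (H : ι → P →₀ ℤ) :
    toRP (∑ i ∈ S, H i) = ∑ i ∈ S, toRP (H i) := by
  classical
  induction S using Finset.induction_on with
  | empty => simp [toRP_zero]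
  | insert a s ha ih => rw [Finset.sum_insert ha, Finset.sum_insert ha, toRP_add, ih]

/-- **POL** -/
theorem pol (hEXU : T_EXU) : T_POL := by
  classical
  intro P n G hG hgen μ ν hμ hν hdiag
  -- the submonoid
  let G₀ : AddSubmonoid (P →₀ ℤ) :=
    { carrier := {D | D = 0 ∨ D ∈ G}
      zero_mem' := Or.inl rfl
      add_mem' := by
        rintro a b (rfl | ha) (rfl | hb)
        · left; simp
        · right; simpa using hb
        · right; simpa using ha
        · right; exact hG a ha b hb }
  apply hEXU P n G₀
  · intro D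
    obtain ⟨A, hA, B, hB, rfl⟩ := hgen D
    exact ⟨A, Or.inr hA, B, Or.inr hB, rfl⟩
  intro H hH
  by_cases hn : n = 0
  · subst hn
    obtain ⟨A, hA, -⟩ := hgen 0
    have := hdiag A hA
    have e1 : (fun j : Fin 0 => toRP (H j)) = fun _ => toRP A := by
      funext j; exact j.elim0
    rw [e1]; exact this
  by_cases hz : ∃ j, H j = 0
  · obtain ⟨j, hj⟩ := hz
    rw [μ.map_coord_zero j (by rw [hj]; exact toRP_zero), ν.map_coord_zero j (by rw [hj]; exact toRP_zero)]
  push Not at hz
  have hHG : ∀ j, H j ∈ G := fun j => (hH j).resolve_left (hz j)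
  have hδ : (μ - ν) (fun j => toRP (H j)) = 0 := by
    refine polar (by omega) (μ - ν) ?_ _ ?_
    · intro σ D
      rw [sub_apply, sub_apply, hμ σ D, hν σ D]
    · intro S hS
      rw [← toRP_sum, sub_apply, sub_eq_zero]
      apply hdiag
      have : ∀ T : Finset (Fin n), T.Nonempty → ∑ i ∈ T, H i ∈ G := by
        intro T hT
        induction hT using Finset.Nonempty.cons_induction with
        | singleton a => simpa using hHG a
        | cons a s ha hs ih =>
          rw [Finset.sum_cons]
          exact hG _ (hHG a) _ ih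
      exact this S hS
  rw [sub_apply, sub_eq_zero] at hδ
  exact hδ

end Pool.Agent.H89.SC2
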