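import Pool.Agent.H93.SC.Targets3

/-!
# Growth along all multiples (MP_f2954d_ag, module SQZ)
-/

set_option autoImplicit false

namespace Pool.Agent.H89.SC2

open SC Filter Topology

/-- the quotients `(m / M ± t) / m` tend to `1 / M` -/
theorem quot_lim (M : ℕ) (hM : 1 ≤ M) (s : ℝ) (q : ℕ → ℕ)
    (hq : ∀ᶠ m in atTop, ((q m : ℕ) : ℝ) = ((m / M : ℕ) : ℝ) + s) :
    Tendsto (fun m : ℕ => ((q m : ℕ) : ℝ) / (m : ℝ)) atTop (𝓝 (1 / (M : ℝ))) := by
  have hM0 : (0 : ℝ) < M := by exact_mod_cast hM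
  have h1 : Tendsto (fun m : ℕ => (1 / (M : ℝ)) + (s - 1) / (m : ℝ)) atTop (𝓝 (1 / (M : ℝ))) := by
    have := (tendsto_const_nhds (x := 1 / (M : ℝ)) (f := atTop (α := ℕ))).add
      ((tendsto_const_div_atTop_nhds_zero_nat (s - 1)))
    simpa using this
  have h2 : Tendsto (fun m : ℕ => (1 / (M : ℝ)) + s / (m : ℝ)) atTop (𝓝 (1 / (M : ℝ))) := by
    have := (tendsto_const_nhds (x := 1 / (M : ℝ)) (f := atTop (α := ℕ))).add
      ((tendsto_const_div_atTop_nhds_zero_nat s))
    simpa using this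
  refine tendsto_of_tendsto_of_tendsto_of_le_of_le' h1 h2 ?_ ?_
  · filter_upwards [hq, eventually_ge_atTop 1] with m hm hm1
    have hm0 : (0 : ℝ) < m := by exact_mod_cast hm1
    rw [hm, le_div_iff₀ hm0]
    have h3 : (m : ℝ) / M - 1 ≤ ((m / M : ℕ) : ℝ) := by
      have h4 : m < M * (m / M + 1) := by
        have := Nat.div_add_mod m M
        have := Nat.mod_lt m (show 0 < M by omega)
        nlinarith
      have h5 : (m : ℝ) < M * (((m / M : ℕ) : ℝ) + 1) := by exact_mod_cast h4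
      have h6 : (m : ℝ) / M < ((m / M : ℕ) : ℝ) + 1 := by
        rw [div_lt_iff₀ hM0]; linarith
      linarith
    have h7 : (1 / (M : ℝ) + (s - 1) / m) * m = (m : ℝ) / M + (s - 1) := by field_simp
    rw [h7]; linarith
  · filter_upwards [hq, eventually_ge_atTop 1] with m hm hm1
    have hm0 : (0 : ℝ) < m := by exact_mod_cast hm1
    rw [hm, div_le_iff₀ hm0]
    have h3 : ((m / M : ℕ) : ℝ) ≤ (m : ℝ) / M := Nat.cast_div_le
    have h7 : (1 / (M : ℝ) + s / m) * m = (m : ℝ) / M + s := by field_simp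
    rw [h7]; linarith

theorem div_tendsto (M : ℕ) (hM : 1 ≤ M) : Tendsto (fun m : ℕ => m / M) atTop atTop :=
  Filter.tendsto_atTop.2 fun b => by
    filter_upwards [eventually_ge_atTop (M * b)] with m hm
    rw [Nat.le_div_iff_mul_le (by omega)]
    rw [mul_comm]; exact hm

/-- limit along a sequence of multiples -/
theorem lim_along (n : ℕ) (h : ℕ → ℕ) (M : ℕ) (c : ℝ) (hM : 1 ≤ M)
    (hc : Tendsto (fun m : ℕ => (h (M * m) : ℝ) / (m : ℝ) ^ n) atTop (𝓝 c)) (s : ℝ) (q : ℕ → ℕ)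
    (hq : ∀ᶠ m in atTop, ((q m : ℕ) : ℝ) = ((m / M : ℕ) : ℝ) + s) (hq2 : Tendsto q atTop atTop) :
    Tendsto (fun m : ℕ => (h (M * q m) : ℝ) / (m : ℝ) ^ n) atTop (𝓝 (c / (M : ℝ) ^ n)) := by
  have h1 := (hc.comp hq2).mul ((quot_lim M hM s q hq).pow n)
  have e1 : c * (1 / (M : ℝ)) ^ n = c / (M : ℝ) ^ n := by rw [div_pow, one_pow]; ring
  rw [e1] at h1
  refine h1.congr' ?_
  filter_upwards [hq2.eventually_ge_atTop 1, eventually_ge_atTop 1] with m hm hm1
  have h2 : ((q m : ℕ) : ℝ) ≠ 0 := by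
    have : q m ≠ 0 := by omega
    exact_mod_cast this
  have h3 : (m : ℝ) ≠ 0 := by
    have : m ≠ 0 := by omega
    exact_mod_cast this
  simp only [Function.comp]
  rw [div_pow]
  field_simp

/-- **SQZ** -/
theorem sqz : T_SQZ := by
  intro n h M c _ hM hc ⟨t, ht⟩
  have hdiv := div_tendsto M hM
  have hlow := lim_along n h M c hM hc (-(t : ℝ)) (fun m => m / M - t) (by
      filter_upwards [hdiv.eventually_ge_atTop t] with m hm
      rw [Nat.cast_sub hm]; ring) (by
      refine Filter.tendsto_atTop.2 fun b => ?_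
      filter_upwards [hdiv.eventually_ge_atTop (b + t)] with m hm
      omega)
  have hup := lim_along n h M c hM hc (t : ℝ) (fun m => m / M + t) (by
      filter_upwards with m
      push_cast; ring) (by
      refine Filter.tendsto_atTop.2 fun b => ?_
      filter_upwards [hdiv.eventually_ge_atTop b] with m hm
      omega)
  refine tendsto_of_tendsto_of_tendsto_of_le_of_le' hlow hup ?_ ?_
  · filter_upwards [hdiv.eventually_ge_atTop t] with m hm
    have h1 := (ht (m / M) hm (m % M) (Nat.mod_lt _ (by omega))).1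
    rw [Nat.div_add_mod, add_zero] at h1
    gcongr
  · filter_upwards [hdiv.eventually_ge_atTop t] with m hm
    have h1 := (ht (m / M) hm (m % M) (Nat.mod_lt _ (by omega))).2
    rw [Nat.div_add_mod] at h1
    gcongr

end Pool.Agent.H89.SC2
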